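import Pool.Agent.Helper75.PZ.GoalsB

/-!
# Packet PZ-PHI (MP_acfd82_an): a metric gauge without rectifiable curves
-/

namespace Pool.Agent.Helper82.PZ

open Finset Filter Topology Pool.Agent.Helper75.PZ

/-- The gauge. -/
noncomputable def gau (w : ℝ → ℝ) (t : ℝ) : ℝ :=
  t + 1 / 2 * ∑' n : ℕ, w ((1 / 2) ^ n) * min (max t 0) ((1 / 2) ^ n)

theorem term_nonneg (w : ℝ → ℝ) (h0 : ∀ r, 0 ≤ w r) (t : ℝ) (n : ℕ) :
    0 ≤ w ((1 / 2) ^ n) * min (max t 0) ((1 / 2) ^ n) :=
  mul_nonneg (h0 _) (le_min (le_max_right _ _) (by positivity))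

theorem pow_le_one' (n : ℕ) : (1 / 2 : ℝ) ^ n ≤ 1 :=
  pow_le_one₀ (by norm_num) (by norm_num)

theorem term_le (w : ℝ → ℝ) (hm : Monotone w) (h0 : ∀ r, 0 ≤ w r) (t : ℝ) (n : ℕ) :
    w ((1 / 2) ^ n) * min (max t 0) ((1 / 2) ^ n) ≤ w 1 * (1 / 2) ^ n := by
  have h1 : w ((1 / 2) ^ n) ≤ w 1 := hm (pow_le_one' n)
  have h2 : min (max t 0) ((1 / 2 : ℝ) ^ n) ≤ (1 / 2) ^ n := min_le_right _ _
  have h3 : 0 ≤ min (max t 0) ((1 / 2 : ℝ) ^ n) := le_min (le_max_right _ _) (by positivity)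
  exact mul_le_mul h1 h2 h3 (h0 _)

theorem summ_maj (w : ℝ → ℝ) : Summable (fun n : ℕ => w 1 * (1 / 2 : ℝ) ^ n) :=
  summable_geometric_two.mul_left _

theorem summ (w : ℝ → ℝ) (hm : Monotone w) (h0 : ∀ r, 0 ≤ w r) (t : ℝ) :
    Summable (fun n : ℕ => w ((1 / 2) ^ n) * min (max t 0) ((1 / 2) ^ n)) :=
  Summable.of_nonneg_of_le (term_nonneg w h0 t) (term_le w hm h0 t) (summ_maj w)

theorem gau_cont (w : ℝ → ℝ) (hm : Monotone w) (h0 : ∀ r, 0 ≤ w r) :
    Continuous (gau w) := by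
  unfold gau
  refine continuous_id.add (continuous_const.mul ?_)
  refine continuous_tsum (u := fun n : ℕ => w 1 * (1 / 2 : ℝ) ^ n) ?_ (summ_maj w) ?_
  · intro n
    fun_prop
  · intro n t
    rw [Real.norm_of_nonneg (term_nonneg w h0 t n)]
    exact term_le w hm h0 t n

theorem gau_zero (w : ℝ → ℝ) : gau w 0 = 0 := by
  unfold gau
  have h : ∀ n : ℕ, w ((1 / 2) ^ n) * min (max (0 : ℝ) 0) ((1 / 2) ^ n) = 0 := by
    intro n
    have : min (max (0 : ℝ) 0) ((1 / 2) ^ n) = 0 := by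
      rw [max_self]
      exact min_eq_left (by positivity)
    rw [this, mul_zero]
  simp only [h, tsum_zero]
  norm_num

/-- The elementary inequality behind the third property. -/
theorem elem (t c : ℝ) (ht : 0 < t) (hc : 0 < c) :
    2 * min (t / 2) c - min t c ≤ 2 * (min t c - min t (c / 2)) := by
  rcases le_total t c with h | h
  · have h1 : min (t / 2) c = t / 2 := min_eq_left (by linarith)
    have h2 : min t c = t := min_eq_left h
    have h3 : min t (c / 2) ≤ t := min_le_left _ _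
    rw [h1, h2]
    linarith
  · have h2 : min t c = c := min_eq_right h
    have h3 : min t (c / 2) = c / 2 := min_eq_right (by linarith)
    have h4 : min (t / 2) c ≤ c := min_le_right _ _
    rw [h2, h3]
    linarith

theorem elem_nonneg (t c : ℝ) (ht : 0 < t) (hc : 0 < c) :
    0 ≤ 2 * min (t / 2) c - min t c := by
  rcases le_total (t / 2) c with h | h
  · rw [min_eq_left h]
    have := min_le_left t c
    linarith
  · rw [min_eq_right h]
    have := min_le_right t c
    linarith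

theorem gau_half (w : ℝ → ℝ) (hm : Monotone w) (h0 : ∀ r, 0 ≤ w r) (t : ℝ) (ht : 0 < t) :
    2 * gau w (t / 2) - gau w t ≤ w t * t := by
  have hmx : max t 0 = t := max_eq_left ht.le
  have hmx2 : max (t / 2) 0 = t / 2 := max_eq_left (by linarith)
  have hs1 := summ w hm h0 t
  have hs2 := summ w hm h0 (t / 2)
  rw [hmx] at hs1
  rw [hmx2] at hs2
  have hkey : ∑' n : ℕ, w ((1 / 2) ^ n) *
      (2 * min (t / 2) ((1 / 2) ^ n) - min t ((1 / 2) ^ n)) ≤ 2 * (w t * t) := by
    refine Real.tsum_le_of_sum_range_le ?_ ?_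
    · intro n
      exact mul_nonneg (h0 _) (elem_nonneg _ _ ht (by positivity))
    · intro N
      have h1 : ∀ n ∈ Finset.range N, w ((1 / 2) ^ n) *
          (2 * min (t / 2) ((1 / 2) ^ n) - min t ((1 / 2) ^ n)) ≤
          (2 * w t) * (min t ((1 / 2) ^ n) - min t ((1 / 2) ^ (n + 1))) := by
        intro n _
        have hp : (0 : ℝ) < (1 / 2) ^ n := by positivity
        have hhalf : (1 / 2 : ℝ) ^ (n + 1) = (1 / 2) ^ n / 2 := by
          rw [pow_succ]
          ring
        rw [hhalf]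
        rcases lt_or_ge ((1 / 2 : ℝ) ^ n) t with h | h
        · have hw : w ((1 / 2) ^ n) ≤ w t := hm h.le
          have he := elem t ((1 / 2) ^ n) ht hp
          have hn := elem_nonneg t ((1 / 2) ^ n) ht hp
          calc w ((1 / 2) ^ n) * (2 * min (t / 2) ((1 / 2) ^ n) - min t ((1 / 2) ^ n))
              ≤ w t * (2 * min (t / 2) ((1 / 2) ^ n) - min t ((1 / 2) ^ n)) :=
                mul_le_mul_of_nonneg_right hw hn
            _ ≤ w t * (2 * (min t ((1 / 2) ^ n) - min t ((1 / 2) ^ n / 2))) :=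
                mul_le_mul_of_nonneg_left he (h0 _)
            _ = (2 * w t) * (min t ((1 / 2) ^ n) - min t ((1 / 2) ^ n / 2)) := by ring
        · have h1 : min (t / 2) ((1 / 2 : ℝ) ^ n) = t / 2 := min_eq_left (by linarith)
          have h2 : min t ((1 / 2 : ℝ) ^ n) = t := min_eq_left h
          have h3 : min t ((1 / 2 : ℝ) ^ n / 2) ≤ t := min_le_left _ _
          rw [h1, h2]
          have h4 : w ((1 / 2) ^ n) * (2 * (t / 2) - t) = 0 := by ring
          rw [h4]
          exact mul_nonneg (mul_nonneg (by norm_num) (h0 _)) (by linarith)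
      refine (Finset.sum_le_sum h1).trans ?_
      rw [← Finset.mul_sum, Finset.sum_range_sub' (fun n => min t ((1 / 2 : ℝ) ^ n))]
      have h5 : min t ((1 / 2 : ℝ) ^ 0) ≤ t := min_le_left _ _
      have h6 : 0 ≤ min t ((1 / 2 : ℝ) ^ N) := le_min ht.le (by positivity)
      have h7 : 0 ≤ 2 * w t := mul_nonneg (by norm_num) (h0 _)
      nlinarith
  have hsplit : ∑' n : ℕ, w ((1 / 2) ^ n) *
      (2 * min (t / 2) ((1 / 2) ^ n) - min t ((1 / 2) ^ n)) =
      2 * (∑' n : ℕ, w ((1 / 2) ^ n) * min (t / 2) ((1 / 2) ^ n)) -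
        ∑' n : ℕ, w ((1 / 2) ^ n) * min t ((1 / 2) ^ n) := by
    rw [← tsum_mul_left, ← (hs2.mul_left 2).tsum_sub hs1]
    refine tsum_congr fun n => ?_
    ring
  unfold gau
  rw [hmx, hmx2]
  rw [hsplit] at hkey
  linarith

theorem phi : P_PHI := by
  intro w hm h0 hns
  refine ⟨gau w, gau_zero w, ?_, ?_, ?_, ?_, gau_half w hm h0, ?_⟩
  · intro t ht
    have : 0 ≤ ∑' n : ℕ, w ((1 / 2) ^ n) * min (max t 0) ((1 / 2) ^ n) :=
      tsum_nonneg (term_nonneg w h0 t)
    unfold gau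
    linarith
  · intro a b ha hab
    have : ∑' n : ℕ, w ((1 / 2) ^ n) * min (max a 0) ((1 / 2) ^ n) ≤
        ∑' n : ℕ, w ((1 / 2) ^ n) * min (max b 0) ((1 / 2) ^ n) := by
      refine (summ w hm h0 a).tsum_le_tsum (fun n => ?_) (summ w hm h0 b)
      exact mul_le_mul_of_nonneg_left (min_le_min_right _ (max_le_max_right _ hab)) (h0 _)
    unfold gau
    linarith
  · intro a b ha hb
    have hab : 0 ≤ a + b := by linarith
    have : ∑' n : ℕ, w ((1 / 2) ^ n) * min (max (a + b) 0) ((1 / 2) ^ n) ≤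
        ∑' n : ℕ, w ((1 / 2) ^ n) * min (max a 0) ((1 / 2) ^ n) +
        ∑' n : ℕ, w ((1 / 2) ^ n) * min (max b 0) ((1 / 2) ^ n) := by
      rw [← (summ w hm h0 a).tsum_add (summ w hm h0 b)]
      refine (summ w hm h0 _).tsum_le_tsum (fun n => ?_)
        ((summ w hm h0 a).add (summ w hm h0 b))
      rw [← mul_add]
      refine mul_le_mul_of_nonneg_left ?_ (h0 _)
      rw [max_eq_left ha, max_eq_left hb, max_eq_left hab]
      have hc : (0 : ℝ) < (1 / 2) ^ n := by positivity
      rcases le_total a ((1 / 2) ^ n) with h | h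
      · rcases le_total b ((1 / 2) ^ n) with h' | h'
        · rw [min_eq_left h, min_eq_left h']
          exact min_le_left _ _
        · rw [min_eq_left h, min_eq_right h']
          exact (min_le_right _ _).trans (by linarith)
      · rw [min_eq_right h]
        have : 0 ≤ min b ((1 / 2) ^ n) := le_min hb hc.le
        exact (min_le_right _ _).trans (by linarith)
    unfold gau
    linarith
  · intro ε hε
    have hc : ContinuousAt (gau w) 0 := (gau_cont w hm h0).continuousAt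
    rw [Metric.continuousAt_iff] at hc
    obtain ⟨δ, hδ, h⟩ := hc ε hε
    refine ⟨δ, hδ, fun t ht0 ht => ?_⟩
    have h1 : dist t 0 < δ := by
      rw [Real.dist_eq, sub_zero, abs_of_nonneg ht0]
      exact ht
    have h2 := h h1
    rw [gau_zero, Real.dist_eq, sub_zero] at h2
    exact (le_abs_self _).trans_lt h2
  · intro L
    have htend := (not_summable_iff_tendsto_nat_atTop_of_nonneg
      (f := fun n : ℕ => w ((1 / 2) ^ n)) (fun n => h0 _)).1 hns
    obtain ⟨N, hN⟩ := (htend.eventually_ge_atTop (2 * L)).exists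
    refine ⟨(1 / 2) ^ N, by positivity, fun t ht0 ht => ?_⟩
    have h1 : ∑ n ∈ Finset.range N, w ((1 / 2) ^ n) * min (max t 0) ((1 / 2) ^ n) ≤
        ∑' n : ℕ, w ((1 / 2) ^ n) * min (max t 0) ((1 / 2) ^ n) :=
      (summ w hm h0 t).sum_le_tsum _ (fun n _ => term_nonneg w h0 t n)
    have h2 : ∑ n ∈ Finset.range N, w ((1 / 2) ^ n) * min (max t 0) ((1 / 2) ^ n) =
        (∑ n ∈ Finset.range N, w ((1 / 2) ^ n)) * t := by
      rw [Finset.sum_mul]
      refine Finset.sum_congr rfl fun n hn => ?_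
      have hn' : n ≤ N := (Finset.mem_range.1 hn).le
      have : (1 / 2 : ℝ) ^ N ≤ (1 / 2) ^ n :=
        pow_le_pow_of_le_one (by norm_num) (by norm_num) hn'
      rw [max_eq_left ht0, min_eq_left (ht.trans this)]
    have h3 : 2 * L * t ≤ (∑ n ∈ Finset.range N, w ((1 / 2) ^ n)) * t :=
      mul_le_mul_of_nonneg_right hN ht0
    unfold gau
    linarith

end Pool.Agent.Helper82.PZ
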